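import Pool.Agent.P.MP_a18ac8_lc.Main

universe u

open Pool.Agent.Lib.Forcing Pool.Agent.P.MP_af0a18_lc Pool.Agent.P.MP_a18ac8_lc

/-- If there is a huge cardinal, then there is a transitive model `N` of ZFC in which the second
uncountable cardinal `κ` has the tree property and carries a saturated ideal. -/
theorem Pool.Agent.Results.MP_a18ac8_lc.TreePropSaturated.result
    (h : ∃ κ : Cardinal.{u}, IsHuge κ) :
    ∃ N : Set ZFSet.{u}, IsZFModel N ∧ Choice N ∧ ∃ ν ∈ N, ∃ κ ∈ N,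
      IsSuccCard N ZFSet.omega ν ∧ IsSuccCard N ν κ ∧ TreeProperty N κ ∧
      ∃ I ∈ N, IsSaturatedIdeal N κ I :=
  h.elim fun _ hκ => Pool.Agent.P.MP_a18ac8_lc.exists_model hκ
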